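import Pool.Agent.Lib.MP_5c318e_ag.Z.Full
import Pool.Agent.Lib.MP_5c318e_ag.T1s.Top
import Pool.Agent.Lib.MP_5c318e_ag.Si.Main
import Pool.Agent.Lib.MP_5c318e_ag.Sch.Top

/-!
The conjecture C+ of Viehweg: `f : X ⟶ Y` is a surjective morphism with connected fibres between
smooth proper complex varieties, `pullback f y` is the fibre over a general closed point `y`.
-/

namespace Pool.Agent.Results.MP_5c318e_ag.Viehweg

open AlgebraicGeometry CategoryTheory Limits Pool.Agent.Lib.MP_5c318e_ag Sch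

theorem result (X Y : Scheme.{0}) [IsIntegral X] [IsIntegral Y]
    (sX : X ⟶ Spec (CommRingCat.of ℂ)) (sY : Y ⟶ Spec (CommRingCat.of ℂ))
    [Smooth sX] [IsProper sX] [Smooth sY] [IsProper sY] (f : X ⟶ Y) (hf : f ≫ sY = sX)
    [Surjective f] (hc : ∀ y : Y, IsClosed ({y} : Set Y) → _root_.IsConnected (f ⁻¹' {y}))
    (hY : 0 ≤ kodaira sY) :
    ∃ V : Y.Opens, (V : Set Y).Nonempty ∧ ∀ y : Spec (CommRingCat.of ℂ) ⟶ Y, y ≫ sY = 𝟙 _ →
      (∀ p, y p ∈ V) → ∃ _ : IsIntegral (pullback f y), Smooth (pullback.snd f y) ∧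
        kodaira (pullback.snd f y) + max (kodaira sY) (variation f sY) ≤ kodaira sX :=
  cplus_closed (fun _ _ _ _ _ _ hKM h1 h2 h3 h4 h5 =>
      cplus_of_curve (fun n => curveIso (Fin n)) hKM h1 h2 h3 h4 h5)
    (fun _ _ _ _ _ _ _ _ B A hB hA _ _ inc h => Si.kod_fibre_le B A hB hA inc h) sX sY f hf hc hY

end Pool.Agent.Results.MP_5c318e_ag.Viehweg
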